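import Pool.Agent.Helper23.BHW.Quad
import Pool.Agent.Helper86.BHW.Final

/-!
The flag argument for quadratic sets, and the inequality for ellipsoids.
-/

set_option autoImplicit false
open scoped Pointwise
open Module

namespace Pool.Agent.Helper23.BHW

open Pool.Agent.Helper86.BHW
open Pool.Agent.Helper85.BHW (E Lat lam lam_pos lam_mono finrank_le_of_lt_lam finrank_span_le
  adapted_basis zero_mem_interior smul_subset_smul_of_le')

/-- quadratic sets -/
def IsQ (H : Type*) [NormedAddCommGroup H] [InnerProductSpace ℝ H] {m : ℕ}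
    (N : Set (Fin m → ℝ)) : Prop :=
  ∃ (F : (Fin m → ℝ) →ₗ[ℝ] H) (u : H) (r : ℝ), Function.Injective F ∧ N = {x | ‖F x - u‖ ≤ r}

/-- `x ↦ (x, 0)` -/
def snoc0 (m : ℕ) : (Fin m → ℝ) →ₗ[ℝ] (Fin (m + 1) → ℝ) where
  toFun x := Fin.snoc x 0
  map_add' x y := by
    funext j
    refine Fin.lastCases ?_ (fun j => ?_) j <;> simp
  map_smul' a x := by
    funext j
    refine Fin.lastCases ?_ (fun j => ?_) j <;> simp

theorem snoc_eq {m : ℕ} (x : Fin m → ℝ) (t : ℝ) :
    (Fin.snoc x t : Fin (m + 1) → ℝ) = snoc0 m x + Fin.snoc 0 t := by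
  funext j
  refine Fin.lastCases ?_ (fun j => ?_) j <;> simp [snoc0]

variable {H : Type*} [NormedAddCommGroup H] [InnerProductSpace ℝ H]

theorem IsQ.slice {m : ℕ} {N : Set (Fin (m + 1) → ℝ)} (hN : IsQ H N) (t : ℤ) :
    IsQ H (slice1 N t) := by
  obtain ⟨F, u, r, hF, rfl⟩ := hN
  refine ⟨F ∘ₗ snoc0 m, u - F (Fin.snoc 0 (t : ℝ)), r, ?_, ?_⟩
  · intro x y h
    have h1 := hF h
    have h2 := congrArg Fin.init h1
    simpa [snoc0] using h2
  · ext x
    show ‖F (Fin.snoc x (t : ℝ)) - u‖ ≤ r ↔ ‖F (snoc0 m x) - (u - F (Fin.snoc 0 (t : ℝ)))‖ ≤ r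
    rw [snoc_eq, map_add]
    have : F (snoc0 m x) + F (Fin.snoc 0 (t : ℝ)) - u =
        F (snoc0 m x) - (u - F (Fin.snoc 0 (t : ℝ))) := by abel
    rw [this]

theorem IsQ.compare {m : ℕ} {N : Set (Fin m → ℝ)} (hN : IsQ H N) (p q : ℕ) (hp : 0 < p)
    (hpq : p ≤ q) : (hit q N).ncard * p ^ m ≤ (hit p N).ncard * q ^ m := by
  obtain ⟨F, u, r, hF, rfl⟩ := hN
  have := quad_compare F hF u r p q hp hpq
  rwa [Fintype.card_fin] at this

/-- the flag theorem for quadratic sets, with the extra modulus `q m` -/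
theorem flag_auxQ (q : ℕ → ℕ) (hq : ∀ i, 0 < q i) (m : ℕ)
    (hgood : ∀ i < m, q (i + 1) ≤ q i) :
    ∀ N : Set (Fin m → ℝ), IsQ H N → (ipts N).Finite →
    (∀ i < m, ∀ x ∈ ipts N, ∀ y ∈ ipts N, red (q i) x = red (q i) y →
      ∀ j : Fin m, i ≤ (j : ℕ) → x j = y j) →
    (ipts N).ncard * (q m) ^ m ≤ (∏ i ∈ Finset.range m, q i) * (hit (q m) N).ncard := by
  induction m with
  | zero =>
    intro N _ hfin _
    have : NeZero (q 0) := ⟨(hq 0).ne'⟩
    simp only [pow_zero, mul_one, Finset.range_zero, Finset.prod_empty, one_mul]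
    rcases (ipts N).eq_empty_or_nonempty with h | ⟨x, hx⟩
    · rw [h]
      simp
    · have h1 : (ipts N).ncard ≤ 1 := by
        rw [Set.ncard_le_one hfin]
        intro a _ b _
        exact Subsingleton.elim _ _
      have h2 : 0 < (hit (q 0) N).ncard := by
        rw [Set.ncard_pos (Set.toFinite _)]
        exact ⟨_, x, hx, rfl⟩
      omega
  | succ m ih =>
    intro N hN hfin hflag
    have h1 : (ipts N).ncard * (q m) ^ m ≤
        (∏ i ∈ Finset.range m, q i) * (hit (q m) N).ncard := by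
      apply fiber N hfin (q m) (hq m)
      · intro z hz z' hz' h
        exact hflag m (Nat.lt_succ_self m) z hz z' hz' h (Fin.last m) (by simp)
      · intro t
        apply ih (fun i hi => hgood i (Nat.lt_succ_of_lt hi)) (slice1 N t) (hN.slice t)
          (ipts_slice1_finite hfin t)
        intro i hi x hx y hy h j hij
        have h2 := hflag i (Nat.lt_succ_of_lt hi) _ (mem_ipts_slice1.1 hx) _
          (mem_ipts_slice1.1 hy) (by rw [red_snoc, red_snoc, h]) j.castSucc (by simpa using hij)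
        simpa using h2
    have h2 := hN.compare (q (m + 1)) (q m) (hq _) (hgood m (Nat.lt_succ_self m))
    have hpos : 0 < q m ^ (m + 1) := Nat.pow_pos (hq m)
    apply Nat.le_of_mul_le_mul_right _ hpos
    calc (ipts N).ncard * q (m + 1) ^ (m + 1) * q m ^ (m + 1)
        = ((ipts N).ncard * q m ^ m) * q m * q (m + 1) ^ (m + 1) := by ring
      _ ≤ ((∏ i ∈ Finset.range m, q i) * (hit (q m) N).ncard) * q m * q (m + 1) ^ (m + 1) :=
          Nat.mul_le_mul_right _ (Nat.mul_le_mul_right _ h1)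
      _ = ((∏ i ∈ Finset.range m, q i) * q m) * ((hit (q m) N).ncard * q (m + 1) ^ (m + 1)) := by
          ring
      _ ≤ ((∏ i ∈ Finset.range m, q i) * q m) * ((hit (q (m + 1)) N).ncard * q m ^ (m + 1)) :=
          Nat.mul_le_mul_left _ h2
      _ = _ := by
          rw [Finset.prod_range_succ]
          ring

/-- the flag theorem for quadratic sets -/
theorem flagQ (d : ℕ) (n : Fin d → ℕ) (hn : ∀ i, 0 < n i)
    (hanti : ∀ i j : Fin d, i ≤ j → n j ≤ n i)
    (N : Set (Fin d → ℝ)) (hN : IsQ H N) (hfin : (ipts N).Finite)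
    (hflag : ∀ i : Fin d, ∀ x ∈ ipts N, ∀ y ∈ ipts N, ∀ z : Fin d → ℤ, x - y = (n i : ℤ) • z →
      ∀ j : Fin d, i ≤ j → x j = y j) :
    (ipts N).ncard ≤ ∏ i, n i := by
  classical
  let q : ℕ → ℕ := fun i => if h : i < d then n ⟨i, h⟩ else 1
  have hq : ∀ i, 0 < q i := by
    intro i
    simp only [q]
    split_ifs with h
    · exact hn _
    · exact Nat.one_pos
  have h := flag_auxQ q hq d (by
    intro i hi
    by_cases h : i + 1 < d
    · have h1 := hanti ⟨i, hi⟩ ⟨i + 1, h⟩ (by simp [Fin.le_def])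
      simp only [q, dif_pos hi, dif_pos h]
      exact h1
    · have h1 := hn ⟨i, hi⟩
      simp only [q, dif_neg h, dif_pos hi]
      exact h1) N hN hfin (by
    intro i hi x hx y hy hxy j hij
    obtain ⟨z, hz⟩ := red_eq_iff.1 hxy
    have e : q i = n ⟨i, hi⟩ := dif_pos hi
    rw [e] at hz
    exact hflag ⟨i, hi⟩ x hx y hy z hz j hij)
  have hqd : q d = 1 := by simp [q]
  have hprod : ∏ i ∈ Finset.range d, q i = ∏ i, n i := by
    rw [← Fin.prod_univ_eq_prod_range]
    apply Finset.prod_congr rfl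
    intro i _
    simp [q]
  have h1 := ncard_all 1 Nat.one_pos (hit 1 N)
  rw [one_pow] at h1
  rw [hqd, one_pow, mul_one, hprod] at h
  calc (ipts N).ncard ≤ (∏ i, n i) * (hit 1 N).ncard := h
    _ ≤ (∏ i, n i) * 1 := Nat.mul_le_mul_left _ h1
    _ = _ := mul_one _

end Pool.Agent.Helper23.BHW
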