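import Pool.Agent.Helper86.BHW.Flag

/-!
Comparison of residue classes for quadratic sets `{x | ‖F x - u‖ ≤ r}`.
-/

set_option autoImplicit false
open Module

namespace Pool.Agent.Helper23.BHW

open Pool.Agent.Helper86.BHW

/-- equidistribution of an equivariant map -/
theorem equi {A C : Type*} [Fintype A] [Fintype C] [AddCommGroup C] (φ : A → C)
    (τ : C → (A ≃ A)) (hτ : ∀ e a, φ (τ e a) = φ a + e) (S : Set C) :
    (φ ⁻¹' S).ncard * Fintype.card C = S.ncard * Fintype.card A := by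
  classical
  have h1 : ∀ e : C, (φ ⁻¹' S).ncard = {a | φ a + e ∈ S}.ncard := by
    intro e
    have : (τ e) '' {a | φ a + e ∈ S} = φ ⁻¹' S := by
      ext a
      constructor
      · rintro ⟨a', ha', rfl⟩
        show φ (τ e a') ∈ S
        rw [hτ]
        exact ha'
      · intro ha
        refine ⟨(τ e).symm a, ?_, by simp⟩
        show φ ((τ e).symm a) + e ∈ S
        rw [← hτ]
        simpa using ha
    rw [← this, Set.ncard_image_of_injective _ (τ e).injective]
  have hc : ∀ e : C, ({a | φ a + e ∈ S} : Set A).ncard =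
      ∑ a : A, (if φ a + e ∈ S then 1 else 0) := by
    intro e
    rw [Set.ncard_eq_toFinset_card', Finset.card_eq_sum_ones, ← Finset.sum_filter]
    apply Finset.sum_congr _ (fun _ _ => rfl)
    ext a
    simp
  have hc' : ∀ a : A, ({e | φ a + e ∈ S} : Set C).ncard =
      ∑ e : C, (if φ a + e ∈ S then 1 else 0) := by
    intro e
    rw [Set.ncard_eq_toFinset_card', Finset.card_eq_sum_ones, ← Finset.sum_filter]
    apply Finset.sum_congr _ (fun _ _ => rfl)
    ext a
    simp
  have h3 : ∀ a : A, ({e | φ a + e ∈ S} : Set C).ncard = S.ncard := by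
    intro a
    have h5 : (Equiv.addLeft (φ a)) '' {e | φ a + e ∈ S} = S := by
      ext c
      constructor
      · rintro ⟨e, he, rfl⟩
        exact he
      · intro hc
        refine ⟨-φ a + c, ?_, by simp⟩
        show φ a + (-φ a + c) ∈ S
        simpa using hc
    nth_rewrite 2 [← h5]
    rw [Set.ncard_image_of_injective _ (Equiv.addLeft (φ a)).injective]
  have h2 : ∑ e : C, ({a | φ a + e ∈ S} : Set A).ncard = S.ncard * Fintype.card A := by
    simp_rw [hc]
    rw [Finset.sum_comm]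
    rw [← Finset.sum_congr rfl (fun a _ => hc' a), Finset.sum_congr rfl (fun a _ => h3 a)]
    simp [mul_comm]
  have h4 : ∑ e : C, ({a | φ a + e ∈ S} : Set A).ncard = Fintype.card C * (φ ⁻¹' S).ncard := by
    rw [Finset.sum_congr rfl (fun e _ => (h1 e).symm)]
    simp
  rw [← h2, h4, mul_comm]

variable {ι : Type*} [Fintype ι]

/-- integer vectors in a bounded set form a finite set -/
theorem finite_near {H : Type*} [NormedAddCommGroup H] [InnerProductSpace ℝ H]
    (F : (ι → ℝ) →ₗ[ℝ] H) (hF : Function.Injective F) (v : ι → ℝ) (R : ℝ) :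
    {n : ι → ℤ | ‖F (v - cz n)‖ ≤ R}.Finite := by
  classical
  obtain ⟨κ, _, hκ⟩ := LinearMap.exists_antilipschitzWith F (LinearMap.ker_eq_bot.2 hF)
  set M : ℤ := ⌈‖v‖ + κ * R⌉ with hM
  apply (Set.finite_Icc (fun _ : ι => -M) (fun _ => M)).subset
  intro n hn
  have h1 : ‖v - cz n‖ ≤ κ * R := by
    have h2 := hκ.le_mul_dist (v - cz n) 0
    rw [map_zero, dist_zero_right, dist_zero_right] at h2
    exact h2.trans (mul_le_mul_of_nonneg_left hn κ.coe_nonneg)
  have h3 : ∀ j, |(n j : ℝ)| ≤ M := by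
    intro j
    have h4 : ‖(v - cz n) j‖ ≤ ‖v - cz n‖ := norm_le_pi_norm _ j
    have h5 : ‖v j‖ ≤ ‖v‖ := norm_le_pi_norm _ j
    have h6 : (n j : ℝ) = v j - (v - cz n) j := by simp [cz]
    have h7 : |(n j : ℝ)| ≤ ‖v j‖ + ‖(v - cz n) j‖ := by
      rw [h6]
      exact abs_sub _ _
    have h8 : ‖v‖ + κ * R ≤ M := Int.le_ceil _
    linarith
  constructor
  · intro j
    have := (abs_le.1 (h3 j)).1
    show -M ≤ n j
    exact_mod_cast this
  · intro j
    have := (abs_le.1 (h3 j)).2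
    show n j ≤ M
    exact_mod_cast this

theorem exists_near {H : Type*} [NormedAddCommGroup H] [InnerProductSpace ℝ H]
    (F : (ι → ℝ) →ₗ[ℝ] H) (hF : Function.Injective F) (v : ι → ℝ) :
    ∃ n : ι → ℤ, ∀ n' : ι → ℤ, ‖F (v - cz n)‖ ≤ ‖F (v - cz n')‖ := by
  have hfin := finite_near F hF v ‖F (v - cz 0)‖
  obtain ⟨n, hn, hmin⟩ := hfin.exists_minimalFor (fun n => ‖F (v - cz n)‖) _
    ⟨0, le_refl ‖F (v - cz 0)‖⟩
  refine ⟨n, fun n' => ?_⟩
  by_cases h : ‖F (v - cz n')‖ ≤ ‖F (v - cz 0)‖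
  · by_contra hlt
    push Not at hlt
    exact absurd (hmin h hlt.le) (not_le.2 hlt)
  · push Not at h
    exact le_trans hn h.le

/-- integer parts -/
noncomputable def fl (x : ι → ℝ) : ι → ℤ := fun j => ⌊x j⌋

/-- some nearest integer vector -/
noncomputable def nr {H : Type*} [NormedAddCommGroup H] [InnerProductSpace ℝ H]
    (F : (ι → ℝ) →ₗ[ℝ] H) (hF : Function.Injective F) (y : ι → ℝ) : ι → ℤ :=
  Classical.choose (exists_near F hF y)

theorem nr_spec {H : Type*} [NormedAddCommGroup H] [InnerProductSpace ℝ H]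
    (F : (ι → ℝ) →ₗ[ℝ] H) (hF : Function.Injective F) (y : ι → ℝ) (n' : ι → ℤ) :
    ‖F (y - cz (nr F hF y))‖ ≤ ‖F (y - cz n')‖ :=
  Classical.choose_spec (exists_near F hF y) n'

/-- a nearest integer vector, chosen equivariantly -/
noncomputable def near {H : Type*} [NormedAddCommGroup H] [InnerProductSpace ℝ H]
    (F : (ι → ℝ) →ₗ[ℝ] H) (hF : Function.Injective F) (x : ι → ℝ) : ι → ℤ :=
  fl x + nr F hF (x - cz (fl x))

theorem near_spec {H : Type*} [NormedAddCommGroup H] [InnerProductSpace ℝ H]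
    (F : (ι → ℝ) →ₗ[ℝ] H) (hF : Function.Injective F) (x : ι → ℝ) (n' : ι → ℤ) :
    ‖F (x - cz (near F hF x))‖ ≤ ‖F (x - cz n')‖ := by
  have h := nr_spec F hF (x - cz (fl x)) (n' - fl x)
  have e1 : x - cz (fl x) - cz (n' - fl x) = x - cz n' := by
    rw [cz_sub]
    abel
  have e2 : x - cz (near F hF x) =
      x - cz (fl x) - cz (nr F hF (x - cz (fl x))) := by
    rw [near, cz_add]
    abel
  rw [e1] at h
  rw [e2]
  exact h

theorem fl_add (x : ι → ℝ) (z : ι → ℤ) : fl (x + cz z) = fl x + z := by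
  funext j
  simp [fl, cz]

theorem near_add {H : Type*} [NormedAddCommGroup H] [InnerProductSpace ℝ H]
    (F : (ι → ℝ) →ₗ[ℝ] H) (hF : Function.Injective F) (x : ι → ℝ) (z : ι → ℤ) :
    near F hF (x + cz z) = near F hF x + z := by
  have e : x + cz z - cz (fl (x + cz z)) = x - cz (fl x) := by
    rw [fl_add, cz_add]
    abel
  unfold near
  rw [e, fl_add]
  abel

/-- the map from a grid to residue classes -/
noncomputable def cls {H : Type*} [NormedAddCommGroup H] [InnerProductSpace ℝ H]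
    (F : (ι → ℝ) →ₗ[ℝ] H) (hF : Function.Injective F) (c : ι → ℝ) (p q M : ℕ)
    (a : ι → ZMod M) : ι → ZMod p :=
  red p (near F hF (c + (q : ℝ)⁻¹ • cz (fun j => ((a j).val : ℤ))))

/-- the map does not depend on the lift -/
theorem cls_eq {H : Type*} [NormedAddCommGroup H] [InnerProductSpace ℝ H]
    (F : (ι → ℝ) →ₗ[ℝ] H) (hF : Function.Injective F) (c : ι → ℝ) (p q M : ℕ) (hp : 0 < p)
    (hq : 0 < q) (hM : M = p * q) (a : ι → ℤ) :
    cls F hF c p q M (red M a) = red p (near F hF (c + (q : ℝ)⁻¹ • cz a)) := by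
  subst hM
  have hpq : 0 < p * q := Nat.mul_pos hp hq
  have : NeZero (p * q) := ⟨hpq.ne'⟩
  have h1 : red (p * q) (fun j => (((red (p * q) a) j).val : ℤ)) = red (p * q) a := by
    funext j
    simp [red]
  obtain ⟨z, hz⟩ := red_eq_iff.1 h1
  have h2 : (fun j => (((red (p * q) a) j).val : ℤ)) = a + ((p * q : ℕ) : ℤ) • z := by
    rw [← hz]
    abel
  have hq' : (q : ℝ) ≠ 0 := by exact_mod_cast hq.ne'
  have h3 : c + (q : ℝ)⁻¹ • cz (a + ((p * q : ℕ) : ℤ) • z) =
      c + (q : ℝ)⁻¹ • cz a + cz ((p : ℤ) • z) := by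
    rw [cz_add, cz_smul, cz_smul, smul_add, smul_smul, ← add_assoc]
    congr 2
    push_cast
    field_simp
  unfold cls
  rw [h2, h3, near_add]
  rw [red_eq_iff]
  exact ⟨z, by simp⟩

theorem red_add {n : ℕ} (x y : ι → ℤ) : red n (x + y) = red n x + red n y := by
  funext j
  simp [red]

/-- counting along the grid -/
theorem cls_count {H : Type*} [NormedAddCommGroup H] [InnerProductSpace ℝ H]
    (F : (ι → ℝ) →ₗ[ℝ] H) (hF : Function.Injective F) (c : ι → ℝ) (p q M : ℕ) (hp : 0 < p)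
    (hq : 0 < q) (hM : M = p * q) (S : Set (ι → ZMod p)) :
    (cls F hF c p q M ⁻¹' S).ncard = S.ncard * q ^ Fintype.card ι := by
  classical
  subst hM
  have hpq : 0 < p * q := Nat.mul_pos hp hq
  have : NeZero (p * q) := ⟨hpq.ne'⟩
  have : NeZero p := ⟨hp.ne'⟩
  have hq' : (q : ℝ) ≠ 0 := by exact_mod_cast hq.ne'
  have h := equi (cls F hF c p q (p * q))
    (fun e => Equiv.addRight (red (p * q) ((q : ℤ) • (fun j => ((e j).val : ℤ))))) (by
      intro e a
      obtain ⟨b, hb⟩ := red_surj (p * q) a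
      rw [← hb]
      simp only [Equiv.coe_addRight]
      rw [← red_add, cls_eq F hF c p q _ hp hq rfl, cls_eq F hF c p q _ hp hq rfl]
      have h3 : c + (q : ℝ)⁻¹ • cz (b + (q : ℤ) • (fun j => ((e j).val : ℤ))) =
          c + (q : ℝ)⁻¹ • cz b + cz (fun j => ((e j).val : ℤ)) := by
        rw [cz_add, cz_smul, smul_add, smul_smul, ← add_assoc]
        congr 2
        push_cast
        rw [inv_mul_cancel₀ hq', one_smul]
      rw [h3, near_add, red_add]
      congr 1
      funext j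
      simp [red]) S
  rw [Fintype.card_fun, Fintype.card_fun, ZMod.card, ZMod.card, mul_pow] at h
  have hpos : 0 < p ^ Fintype.card ι := Nat.pow_pos hp
  apply Nat.eq_of_mul_eq_mul_right hpos
  rw [h]
  ring

/-- the star property -/
theorem star {H : Type*} [NormedAddCommGroup H] [InnerProductSpace ℝ H]
    (a X N N' : H) (s : ℝ) (hs0 : 0 ≤ s) (hs1 : s < 1)
    (h1 : ‖(1 - s) • a + s • X - N‖ ≤ ‖(1 - s) • a + s • X - N'‖)
    (h2 : ‖X - N'‖ ≤ ‖X - N‖) : ‖N - a‖ ≤ ‖N' - a‖ := by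
  have h1' := mul_self_le_mul_self (norm_nonneg _) h1
  have h2' := mul_self_le_mul_self (norm_nonneg _) h2
  rw [← sq, ← sq] at h1' h2'
  rw [norm_sub_sq_real, norm_sub_sq_real] at h1' h2'
  rw [inner_add_left, inner_add_left, inner_smul_left, inner_smul_left, inner_smul_left,
    inner_smul_left] at h1'
  simp only [RCLike.conj_to_real] at h1'
  have h3 : ‖N - a‖ ^ 2 ≤ ‖N' - a‖ ^ 2 := by
    rw [norm_sub_sq_real, norm_sub_sq_real, real_inner_comm a N, real_inner_comm a N']
    have h4 := mul_le_mul_of_nonneg_left h2' hs0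
    have h5 : (1 - s) * (‖N‖ ^ 2 - 2 * inner ℝ a N) ≤ (1 - s) * (‖N'‖ ^ 2 - 2 * inner ℝ a N') := by
      nlinarith
    have h6 := le_of_mul_le_mul_left h5 (by linarith)
    linarith
  exact le_of_sq_le_sq h3 (norm_nonneg _)

/-- a centre -/
theorem exists_centre {H : Type*} [NormedAddCommGroup H] [InnerProductSpace ℝ H]
    (F : (ι → ℝ) →ₗ[ℝ] H) (u : H) :
    ∃ c : ι → ℝ, ∀ x, ‖F x - u‖ ^ 2 = ‖F x - F c‖ ^ 2 + ‖F c - u‖ ^ 2 := by
  set W := LinearMap.range F with hW
  obtain ⟨c, hc⟩ : (W.starProjection u) ∈ W := Submodule.starProjection_apply_mem W u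
  refine ⟨c, fun x => ?_⟩
  have h1 : inner ℝ (F x - F c) (F c - u) = 0 := by
    have h2 : u - F c ∈ Wᗮ := by
      rw [hc]
      exact Submodule.sub_starProjection_mem_orthogonal u
    have h3 : F x - F c ∈ W := by
      rw [← map_sub]
      exact ⟨_, rfl⟩
    have h4 := (Submodule.mem_orthogonal W _).1 h2 _ h3
    have h5 : F c - u = -(u - F c) := by abel
    rw [h5, inner_neg_right, h4, neg_zero]
  have h6 : F x - u = (F x - F c) + (F c - u) := by abel
  rw [h6, norm_add_sq_real, h1]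
  ring

/-- the comparison for quadratic sets -/
theorem quad_compare {H : Type*} [NormedAddCommGroup H] [InnerProductSpace ℝ H]
    (F : (ι → ℝ) →ₗ[ℝ] H) (hF : Function.Injective F) (u : H) (r : ℝ) (p q : ℕ) (hp : 0 < p)
    (hpq : p ≤ q) :
    (hit q {x | ‖F x - u‖ ≤ r}).ncard * p ^ Fintype.card ι ≤
      (hit p {x | ‖F x - u‖ ≤ r}).ncard * q ^ Fintype.card ι := by
  classical
  rcases hpq.eq_or_lt with rfl | hlt
  · exact le_refl _
  have hq : 0 < q := hp.trans hlt
  have hq' : (0 : ℝ) < q := by exact_mod_cast hq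
  have hp' : (0 : ℝ) < p := by exact_mod_cast hp
  obtain ⟨c, hc⟩ := exists_centre F u
  set M := p * q with hM
  have : NeZero M := ⟨(Nat.mul_pos hp hq).ne'⟩
  rw [← cls_count F hF c q p M hq hp (by rw [hM, mul_comm]),
    ← cls_count F hF c p q M hp hq hM]
  apply Set.ncard_le_ncard _ (Set.toFinite _)
  intro a ha
  obtain ⟨b, rfl⟩ := red_surj M a
  have ha' : cls F hF c q p M (red M b) ∈ hit q {x | ‖F x - u‖ ≤ r} := ha
  show cls F hF c p q M (red M b) ∈ hit p {x | ‖F x - u‖ ≤ r}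
  rw [cls_eq F hF c q p M hq hp (by rw [hM, mul_comm])] at ha'
  rw [cls_eq F hF c p q M hp hq hM]
  obtain ⟨m, hm, hmr⟩ := ha'
  obtain ⟨z, hz⟩ := red_eq_iff.1 hmr
  have hm' : ‖F (cz m) - u‖ ≤ r := hm
  -- move the point so that the nearest vector is `m`
  set x' : ι → ℝ := c + (p : ℝ)⁻¹ • cz b + cz ((q : ℤ) • z) with hx'
  have hm2 : m = near F hF x' := by
    rw [hx', near_add, ← hz]
    abel
  set x : ι → ℝ := c + (q : ℝ)⁻¹ • cz b + cz ((p : ℤ) • z) with hx
  have hn : near F hF x = near F hF (c + (q : ℝ)⁻¹ • cz b) + (p : ℤ) • z := by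
    rw [hx, near_add]
  refine ⟨near F hF x, ?_, ?_⟩
  swap
  · rw [red_eq_iff]
    exact ⟨z, by rw [hn]; abel⟩
  have hs : x = (1 - (p : ℝ) / q) • c + ((p : ℝ) / q) • x' := by
    rw [hx, hx', cz_smul, cz_smul]
    funext j
    simp only [Pi.add_apply, Pi.smul_apply, smul_eq_mul]
    push_cast
    field_simp
    ring
  have h1 := near_spec F hF x (near F hF x')
  have h2 := near_spec F hF x' (near F hF x)
  rw [map_sub, map_sub] at h1 h2
  have hFx : F x = (1 - (p : ℝ) / q) • F c + ((p : ℝ) / q) • F x' := by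
    rw [hs, map_add, map_smul, map_smul]
  rw [hFx] at h1
  have h3 := star (F c) (F x') (F (cz (near F hF x))) (F (cz (near F hF x'))) ((p : ℝ) / q)
    (by positivity) (by rw [div_lt_one hq']; exact_mod_cast hlt) h1 h2
  show ‖F (cz (near F hF x)) - u‖ ≤ r
  refine le_trans ?_ hm'
  apply le_of_sq_le_sq _ (norm_nonneg _)
  rw [hc (cz (near F hF x)), hc (cz m), hm2]
  have h4 := mul_self_le_mul_self (norm_nonneg _) h3
  rw [← sq, ← sq] at h4
  linarith

end Pool.Agent.Helper23.BHW
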