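import Pool.Agent.Helper23.BHW.Ellipsoid

/-!
Bodies between two homothetic ellipsoids.
-/

set_option autoImplicit false
open scoped Pointwise
open Module

namespace Pool.Agent.Helper23.BHW

open Pool.Agent.Helper86.BHW
open Pool.Agent.Helper85.BHW (E Lat lam lam_pos lam_mono lamSet lamSet_bddBelow lamSet_nonempty)

theorem ell_mem_smul {d : ℕ} (A : E d →ₗ[ℝ] E d) (ρ : ℝ) (hρ0 : 0 < ρ) (x : E d) :
    x ∈ ell (ρ⁻¹ • A) ↔ ‖A x‖ ≤ ρ := by
  show ‖(ρ⁻¹ • A) x‖ ≤ 1 ↔ _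
  rw [LinearMap.smul_apply, norm_smul, Real.norm_of_nonneg (inv_nonneg.2 hρ0.le),
    inv_mul_le_iff₀ hρ0, mul_one]

theorem smul_inj {d : ℕ} (A : E d →ₗ[ℝ] E d) (hA : Function.Injective A) (ρ : ℝ) (hρ0 : 0 < ρ) :
    Function.Injective (ρ⁻¹ • A : E d →ₗ[ℝ] E d) := by
  intro x y hxy
  apply hA
  have h1 : ρ⁻¹ • A x = ρ⁻¹ • A y := hxy
  exact smul_right_injective _ (inv_ne_zero hρ0.ne') h1

theorem lam_scale {d : ℕ} (b : Basis (Fin d) ℝ (E d)) (K : Set (E d)) (A : E d →ₗ[ℝ] E d)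
    (ρ : ℝ) (hρ0 : 0 < ρ) (hin : ∀ x, ‖A x‖ ≤ 1 → x ∈ K) (i : Fin d) :
    lam b K i ≤ ρ * lam b (ell (ρ⁻¹ • A)) i := by
  have hne := lamSet_nonempty b (ell (ρ⁻¹ • A)) (ell_convex _) (ell_interior _) (ell_symm _) i
  rw [mul_comm, ← div_le_iff₀ hρ0]
  apply le_csInf hne
  rintro s ⟨hs, hs2⟩
  rw [div_le_iff₀ hρ0]
  apply csInf_le (lamSet_bddBelow b K i)
  refine ⟨mul_pos hs hρ0, hs2.trans ?_⟩
  apply Submodule.finrank_mono
  apply Submodule.span_mono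
  apply Set.inter_subset_inter_left
  rintro _ ⟨y, hy, rfl⟩
  refine ⟨ρ⁻¹ • y, ?_, ?_⟩
  · apply hin
    rw [map_smul, norm_smul, Real.norm_of_nonneg (inv_nonneg.2 hρ0.le), inv_mul_le_iff₀ hρ0,
      mul_one]
    exact (ell_mem_smul A ρ hρ0 y).1 hy
  · show (s * ρ) • ρ⁻¹ • y = s • y
    rw [smul_smul, mul_assoc, mul_inv_cancel₀ hρ0.ne', mul_one]

theorem floors {d : ℕ} (L : Fin d → ℝ) (hpos : ∀ i, 0 < L i) (hmono : Monotone L) (ρ : ℝ)
    (hρ0 : 0 < ρ) :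
    ∃ n : Fin d → ℕ, (∀ i, ((n i : ℕ) : ℤ) = ⌊2 * ρ / L i + 1⌋) ∧ (∀ i, 2 * ρ < n i * L i) ∧
      (∀ i j : Fin d, i ≤ j → n j ≤ n i) := by
  have hfl : ∀ i, 0 ≤ ⌊2 * ρ / L i + 1⌋ := fun i => Int.floor_nonneg.2 (by
    have := hpos i
    positivity)
  obtain ⟨n, hn⟩ : ∃ n : Fin d → ℕ, ∀ i, ((n i : ℕ) : ℤ) = ⌊2 * ρ / L i + 1⌋ :=
    ⟨fun i => ⌊2 * ρ / L i + 1⌋.toNat, fun i => Int.toNat_of_nonneg (hfl i)⟩
  refine ⟨n, hn, ?_, ?_⟩
  · intro i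
    have h2 := Int.lt_floor_add_one (2 * ρ / L i + 1)
    have h3 : ((n i : ℕ) : ℝ) = ((⌊2 * ρ / L i + 1⌋ : ℤ) : ℝ) := by
      rw [← hn i]
      push_cast
      rfl
    have h4 : 2 * ρ / L i < ((n i : ℕ) : ℝ) := by
      rw [h3]
      linarith
    rwa [div_lt_iff₀ (hpos i)] at h4
  · intro i j hij
    have h7 : ((n j : ℕ) : ℤ) ≤ ((n i : ℕ) : ℤ) := by
      rw [hn, hn]
      apply Int.floor_le_floor
      have h5 := hmono hij
      have h6 := hpos i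
      gcongr
    exact_mod_cast h7

theorem translate_finite {d : ℕ} (b : Basis (Fin d) ℝ (E d)) (K : Set (E d)) (hK : IsCompact K)
    (t : E d) : ({x | x - t ∈ K} ∩ (Lat b : Set (E d))).Finite := by
  apply ZSpan.setFinite_inter b
  have h9 : {x | x - t ∈ K} = (fun x => x + t) '' K := by
    ext x
    constructor
    · intro hx
      exact ⟨x - t, hx, by simp⟩
    · rintro ⟨y, hy, rfl⟩
      simpa using hy
  rw [h9]
  exact (hK.image (by fun_prop)).isBounded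

theorem nonempty_of_in {d : ℕ} (b : Basis (Fin d) ℝ (E d)) (K : Set (E d)) (A : E d →ₗ[ℝ] E d)
    (hin : ∀ x, ‖A x‖ ≤ 1 → x ∈ K) (i : Fin d) : (lamSet b K i).Nonempty := by
  obtain ⟨s, hs, hs2⟩ := lamSet_nonempty b (ell A) (ell_convex A) (ell_interior A) (ell_symm A) i
  refine ⟨s, hs, hs2.trans ?_⟩
  apply Submodule.finrank_mono
  apply Submodule.span_mono
  apply Set.inter_subset_inter_left
  exact Set.smul_set_mono (fun x hx => hin x hx)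

theorem mono_of_in {d : ℕ} (b : Basis (Fin d) ℝ (E d)) (K : Set (E d)) (A : E d →ₗ[ℝ] E d)
    (hin : ∀ x, ‖A x‖ ≤ 1 → x ∈ K) : Monotone (lam b K) := by
  intro i j hij
  apply csInf_le_csInf (lamSet_bddBelow b K i) (nonempty_of_in b K A hin j)
  rintro t ⟨ht, h⟩
  refine ⟨ht, le_trans ?_ h⟩
  have : i.val ≤ j.val := hij
  omega

theorem pos_of_in {d : ℕ} (b : Basis (Fin d) ℝ (E d)) (K : Set (E d)) (A B : E d →ₗ[ℝ] E d)
    (hB : Function.Injective B)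
    (hin : ∀ x, ‖A x‖ ≤ 1 → x ∈ K) (hout : ∀ x ∈ K, x ∈ ell B) (i : Fin d) :
    0 < lam b K i := by
  refine lt_of_lt_of_le (lam_pos b (ell B) (ell_convex B) (ell_compact B hB) (ell_interior B)
    (ell_symm B) i) ?_
  apply csInf_le_csInf (lamSet_bddBelow b (ell B) i) (nonempty_of_in b K A hin i)
  rintro s ⟨hs, hs2⟩
  refine ⟨hs, hs2.trans ?_⟩
  apply Submodule.finrank_mono
  apply Submodule.span_mono
  apply Set.inter_subset_inter_left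
  exact Set.smul_set_mono (fun x hx => hout x hx)

theorem sandwich {d : ℕ} (b : Basis (Fin d) ℝ (E d)) (K : Set (E d))
    (A : E d →ₗ[ℝ] E d) (hA : Function.Injective A)
    (ρ : ℝ) (hρ0 : 0 < ρ) (hin : ∀ x, ‖A x‖ ≤ 1 → x ∈ K) (hout : ∀ x ∈ K, ‖A x‖ ≤ ρ)
    (t : E d) :
    (({x | x - t ∈ K} ∩ (Lat b : Set (E d))).ncard : ℤ) ≤
      ∏ i : Fin d, ⌊2 * ρ / lam b K i + 1⌋ := by
  have hscale := lam_scale b K A ρ hρ0 hin
  have hinj := smul_inj A hA ρ hρ0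
  have hmem := ell_mem_smul A ρ hρ0
  generalize (ρ⁻¹ • A : E d →ₗ[ℝ] E d) = B at hscale hinj hmem
  obtain ⟨n, hn, hn2, hanti⟩ := floors (lam b K)
    (pos_of_in b K A B hinj hin (fun x hx => (hmem x).2 (hout x hx)))
    (mono_of_in b K A hin) ρ hρ0
  have hn3 : ∀ i, 2 < n i * lam b (ell B) i := by
    intro i
    have h6 : (0 : ℝ) ≤ n i := Nat.cast_nonneg _
    have h7 := mul_le_mul_of_nonneg_left (hscale i) h6
    have h8 : 2 * ρ < (n i * lam b (ell B) i) * ρ := by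
      have := hn2 i
      linarith
    exact lt_of_mul_lt_mul_right h8 hρ0.le
  have h := ell_bound b B hinj t n hn3 hanti
  have hfin := translate_finite b (ell B) (ell_compact B hinj) t
  have hsub : {x | x - t ∈ K} ∩ (Lat b : Set (E d)) ⊆ {x | x - t ∈ ell B} ∩
      (Lat b : Set (E d)) := by
    rintro x ⟨hx1, hx2⟩
    exact ⟨(hmem (x - t)).2 (hout (x - t) hx1), hx2⟩
  have h0 : ({x | x - t ∈ K} ∩ (Lat b : Set (E d))).ncard ≤ ∏ i, n i :=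
    (Set.ncard_le_ncard hsub hfin).trans h
  calc (({x | x - t ∈ K} ∩ (Lat b : Set (E d))).ncard : ℤ) ≤ ((∏ i, n i : ℕ) : ℤ) :=
        Int.ofNat_le.2 h0
    _ = ∏ i : Fin d, ((n i : ℕ) : ℤ) := Nat.cast_prod _ _
    _ = _ := Finset.prod_congr rfl (fun i _ => hn i)

end Pool.Agent.Helper23.BHW
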